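import Mathlib
import Pool.Agent.H57.Code.Lp

set_option autoImplicit false

/-!
The part of an even edge set inside the edge set of a word without `z` (MP_a46c6f_co).
-/

namespace Pool.Agent.H70.Q

open Pool.Agent.H98.Code Pool.Agent.H57.Code

lemma z2d : ∀ t : ZMod 2, t = 0 ∨ t = 1 := by decide

lemma z2e : ∀ s t : ZMod 2, s + t = 0 → s = t := by decide

lemma z2f : ∀ s t : ZMod 2, s + t = 1 → t = 1 + s := by decide

lemma z2g : (1 : ZMod 2) + 1 = 0 := by decide

/-- at a place where the word is `0` the four edges are equal -/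
lemma four {n : ℕ} (p : Equiv.Perm (ZMod n)) (a b : ZMod n → ZMod 2) (hab : Ev p a b) (i : ZMod n)
    (h : word p a b i = 0) : a (i - 1) = a i ∧ b (p i - 1) = a i ∧ b (p i) = a i := by
  have h1 := hab i
  have h2 : a (i - 1) + a i = 0 := congrArg Prod.fst h
  have h3 : a i + b (p i) = 0 := congrArg Prod.snd h
  have key : ∀ x1 x2 x3 x4 : ZMod 2, x1 + x2 = x4 + x3 → x1 + x2 = 0 → x2 + x3 = 0 →
    x1 = x2 ∧ x4 = x2 ∧ x3 = x2 := by decide
  exact key _ _ _ _ h1 h2 h3

lemma k1 : ∀ a0 a1 b0 b1 : ZMod 2, a0 + a1 = 1 → b0 + b1 = 1 → ∀ c : ZMod 2,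
    a0 * c + a1 * c = b0 * c + b1 * c := by decide

lemma k2 : ∀ a0 a1 b1 c : ZMod 2, a0 + a1 = 1 →
    (a0 * c + a1 * c = 0 ∧ a1 * c + b1 * c = 0) ∨
      (a0 * c + a1 * c = a0 + a1 ∧ a1 * c + b1 * c = a1 + b1) := by decide

lemma k3' : ∀ a0 b0 c0 d0 : ZMod 2, (1 + c0) + (1 + d0) = (1 + a0) + (1 + b0) →
    a0 * c0 + (1 + a0) * (1 + c0) = b0 * d0 + (1 + b0) * (1 + d0) := by decide

lemma k3 (a0 a1 b0 b1 c0 c1 d0 d1 : ZMod 2) (h1 : a0 + a1 = 1) (h2 : b0 + b1 = 1)
    (h3 : c0 + c1 = 1) (h4 : d0 + d1 = 1) (h5 : c1 + d1 = a1 + b1) :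
    a0 * c0 + a1 * c1 = b0 * d0 + b1 * d1 := by
  rw [z2f _ _ h3, z2f _ _ h4, z2f _ _ h1, z2f _ _ h2] at h5
  rw [z2f _ _ h3, z2f _ _ h4, z2f _ _ h1, z2f _ _ h2]
  exact k3' _ _ _ _ h5

lemma k4 : ∀ a0 a1 b0 b1 c0 c1 d0 d1 : ZMod 2, a0 + a1 = 1 → b0 + b1 = 1 → c0 + c1 = 1 →
    d0 + d1 = 1 → c1 + d1 = a1 + b1 →
    (a0 * c0 + a1 * c1 = 0 ∧ a1 * c1 + b1 * d1 = 0) ∨
      (a0 * c0 + a1 * c1 = a0 + a1 ∧ a1 * c1 + b1 * d1 = a1 + b1) := by decide

/-- **the part of `(a', b')` inside `(a, b)`**: if the word of `(a', b')` is `0` or equal to the word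
of `(a, b)` on the support of the latter, then the intersection is even; its word is the word of
`(a', b')` at the own matching edges of `(a, b)` and `0` at those of the complement -/
theorem dpart {n : ℕ} (p : Equiv.Perm (ZMod n)) (a b a' b' : ZMod n → ZMod 2) (hab : Ev p a b)
    (hz : ∀ i, word p a b i ≠ z) (hab' : Ev p a' b')
    (hle : ∀ i, word p a b i ≠ 0 → word p a' b' i = 0 ∨ word p a' b' i = word p a b i) :
    Ev p (fun i => a i * a' i) (fun j => b j * b' j) ∧
    (∀ i, word p a b i ≠ 0 → word p (fun i => a i * a' i) (fun j => b j * b' j) i = 0 ∨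
      word p (fun i => a i * a' i) (fun j => b j * b' j) i = word p a b i) ∧
    (∀ i, word p a b i = 0 → a i = 1 →
      word p (fun i => a i * a' i) (fun j => b j * b' j) i = word p a' b' i) ∧
    (∀ i, word p a b i = 0 → a i = 0 →
      word p (fun i => a i * a' i) (fun j => b j * b' j) i = 0) := by
  have main : ∀ i, (a (i - 1) * a' (i - 1) + a i * a' i =
      b (p i - 1) * b' (p i - 1) + b (p i) * b' (p i)) ∧
      (word p a b i ≠ 0 → word p (fun i => a i * a' i) (fun j => b j * b' j) i = 0 ∨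
        word p (fun i => a i * a' i) (fun j => b j * b' j) i = word p a b i) := by
    intro i
    by_cases h0 : word p a b i = 0
    · refine ⟨?_, fun h => absurd h0 h⟩
      obtain ⟨h1, h2, h3⟩ := four p a b hab i h0
      rw [h1, h2, h3]
      have := hab' i
      linear_combination a i * this
    · have h1 : a (i - 1) + a i = 1 := by
        rcases z2d (a (i - 1) + a i) with h1 | h1
        · exfalso
          rcases z2d (a i + b (p i)) with h2 | h2
          · exact h0 (Prod.ext h1 h2)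
          · exact hz i (Prod.ext h1 h2)
        · exact h1
      have h2 : b (p i - 1) + b (p i) = 1 := (hab i).symm.trans h1
      rcases hle i h0 with h3 | h3
      · obtain ⟨g1, g2, g3⟩ := four p a' b' hab' i h3
        refine ⟨?_, fun _ => ?_⟩
        · rw [g1, g2, g3]
          exact k1 _ _ _ _ h1 h2 _
        · rcases k2 (a (i - 1)) (a i) (b (p i)) (a' i) h1 with ⟨e1, e2⟩ | ⟨e1, e2⟩
          · left
            refine Prod.ext ?_ ?_
            · show a (i - 1) * a' (i - 1) + a i * a' i = 0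
              rw [g1]; exact e1
            · show a i * a' i + b (p i) * b' (p i) = 0
              rw [g3]; exact e2
          · right
            refine Prod.ext ?_ ?_
            · show a (i - 1) * a' (i - 1) + a i * a' i = a (i - 1) + a i
              rw [g1]; exact e1
            · show a i * a' i + b (p i) * b' (p i) = a i + b (p i)
              rw [g3]; exact e2
      · have g1 : a' (i - 1) + a' i = a (i - 1) + a i := congrArg Prod.fst h3
        have g2 : a' i + b' (p i) = a i + b (p i) := congrArg Prod.snd h3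
        have g3 : a' (i - 1) + a' i = 1 := g1.trans h1
        have g4 : b' (p i - 1) + b' (p i) = 1 := (hab' i).symm.trans g3
        refine ⟨k3 _ _ _ _ _ _ _ _ h1 h2 g3 g4 g2, fun _ => ?_⟩
        rcases k4 _ _ _ _ _ _ _ _ h1 h2 g3 g4 g2 with ⟨e1, e2⟩ | ⟨e1, e2⟩
        · exact Or.inl (Prod.ext e1 e2)
        · exact Or.inr (Prod.ext e1 e2)
  refine ⟨fun i => (main i).1, fun i => (main i).2, fun i h0 h1 => ?_, fun i h0 h1 => ?_⟩
  · obtain ⟨g1, g2, g3⟩ := four p a b hab i h0
    refine Prod.ext ?_ ?_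
    · show a (i - 1) * a' (i - 1) + a i * a' i = a' (i - 1) + a' i
      rw [g1, h1, one_mul, one_mul]
    · show a i * a' i + b (p i) * b' (p i) = a' i + b' (p i)
      rw [g3, h1, one_mul, one_mul]
  · obtain ⟨g1, g2, g3⟩ := four p a b hab i h0
    refine Prod.ext ?_ ?_
    · show a (i - 1) * a' (i - 1) + a i * a' i = 0
      rw [g1, h1, zero_mul, zero_mul, add_zero]
    · show a i * a' i + b (p i) * b' (p i) = 0
      rw [g3, h1, zero_mul, zero_mul, add_zero]

/-- the code side: every word of the code below `u` on the support of `u` has a part which is the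
same at the own matching edges of the side `(a, b)`, `0` at those of the other side and below `u` on
the support of `u` -/
theorem part_set {n : ℕ} (p : Equiv.Perm (ZMod n)) (a b : ZMod n → ZMod 2) (hab : Ev p a b)
    (hz : ∀ i, word p a b i ≠ z) (v : ZMod n → K) (hv : v ∈ Lp p)
    (hle : ∀ i, word p a b i ≠ 0 → v i = 0 ∨ v i = word p a b i) :
    ∃ v' ∈ Lp p, (∀ i, word p a b i ≠ 0 → v' i = 0 ∨ v' i = word p a b i) ∧
      (∀ i, word p a b i = 0 → a i = 1 → v' i = v i) ∧
      (∀ i, word p a b i = 0 → a i = 0 → v' i = 0) := by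
  obtain ⟨a', b', hab', rfl⟩ := hv
  obtain ⟨h1, h2, h3, h4⟩ := dpart p a b a' b' hab hz hab' hle
  exact ⟨_, word_mem p _ _ h1, h2, h3, h4⟩

end Pool.Agent.H70.Q
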