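import Mathlib
import Pool.Agent.H57.Code.Indec
import Pool.Agent.H97.Sum.Crit

set_option autoImplicit false

/-!
Critical contra pairs on permutation graphs, the graph side (MP_a46c6f_co): without a removable
circuit a nonzero word without `z` splits, or its edge set has an own matching edge.
-/

namespace Pool.Agent.H70.Q

open SimpleGraph Pool.Agent.H5.Goddyn Pool.Agent.H98.TC Pool.Agent.H64.Pent Pool.Agent.H98.Code
open Pool.Agent Pool.Agent.H57.Code

variable {V : Type*}

lemma compOf_eq (G K : SimpleGraph V) (hK : ∀ a b, K.Adj a b → G.Adj a b) (u a : V)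
    (h : K.Reachable u a) : compOf G K hK u = compOf G K hK a := by
  refine SimpleGraph.Subgraph.ext ?_ ?_
  · ext w
    exact ⟨fun hw => h.symm.trans hw, fun hw => h.trans hw⟩
  · ext c d
    exact ⟨fun hc => ⟨hc.1, h.symm.trans hc.2⟩, fun hc => ⟨hc.1, h.trans hc.2⟩⟩

/-- a weight with values `0` and `1` whose support has degrees `0` and `2` is a sum of circuits -/
theorem fcc_of_two [Finite V] (G : SimpleGraph V) (w : Sym2 V → ℕ)
    (hw : ∀ e ∈ G.edgeSet, w e ≤ 1)
    (hdeg : ∀ v u, (support G w).Adj v u → ((support G w).neighborSet v).ncard = 2) :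
    HasFaithfulCircuitCover G w := by
  classical
  have hK : ∀ a b, (support G w).Adj a b → G.Adj a b :=
    fun a b h => ((H77.Code.supp_adj w a b).1 h).1
  let F : Set G.Subgraph := {C | ∃ u v, (support G w).Adj u v ∧ C = compOf G (support G w) hK u}
  have hfin : Finite G.Subgraph := inferInstance
  have hFfin : Finite F := inferInstance
  obtain ⟨k, ⟨f⟩⟩ := Finite.exists_equiv_fin F
  refine ⟨k, fun i => (f.symm i).1, ?_, ?_⟩
  · intro i
    obtain ⟨u, v, huv, hC⟩ := (f.symm i).2
    show IsCircuit (f.symm i).1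
    rw [hC]
    exact compOf_circuit G (support G w) hK hdeg u v huv
  · intro e he
    induction e using Sym2.ind with
    | _ a b =>
      by_cases hab : (support G w).Adj a b
      · have hmem : compOf G (support G w) hK a ∈ F := ⟨a, b, hab, rfl⟩
        have hset : {i | s(a, b) ∈ ((f.symm i).1 : G.Subgraph).edgeSet} = {f ⟨_, hmem⟩} := by
          ext i
          rw [Set.mem_singleton_iff]
          constructor
          · intro hi
            have hi' : ((f.symm i).1 : G.Subgraph).Adj a b := hi
            obtain ⟨u, v, huv, hC⟩ := (f.symm i).2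
            rw [hC] at hi'
            have h2 := compOf_eq G (support G w) hK u a hi'.2
            have h3 : f.symm i = ⟨_, hmem⟩ := Subtype.ext (hC.trans h2)
            rw [← h3, Equiv.apply_symm_apply]
          · rintro rfl
            have h1 : ((f.symm (f ⟨_, hmem⟩)).1 : G.Subgraph).Adj a b := by
              rw [Equiv.symm_apply_apply]
              exact ⟨hab, Reachable.refl a⟩
            exact h1
        rw [hset, Set.ncard_singleton]
        have h1 := ((H77.Code.supp_adj w a b).1 hab).2
        have h2 := hw _ he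
        omega
      · have hset : {i | s(a, b) ∈ ((f.symm i).1 : G.Subgraph).edgeSet} = ∅ := by
          rw [Set.eq_empty_iff_forall_notMem]
          intro i hi
          have hi' : ((f.symm i).1 : G.Subgraph).Adj a b := hi
          obtain ⟨u, v, huv, hC⟩ := (f.symm i).2
          rw [hC] at hi'
          exact hab hi'.1
        rw [hset, Set.ncard_empty]
        have h1 : ¬ 0 < w s(a, b) := fun h1 => hab ((H77.Code.supp_adj w a b).2 ⟨he, h1⟩)
        omega

lemma z2c : ∀ t : ZMod 2, t = 0 ∨ t = 1 := by decide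

/-- **no removable circuit**: a nonzero word without `z` splits, or its edge set has an own matching
edge -/
theorem wc [Finite V] (G : SimpleGraph V) (M C₁ C₂ : G.Subgraph)
    (h : IsPermutationGraph G M C₁ C₂) (hcrit : ∀ C : G.Subgraph, ¬ Removable G (wt M) C) {n : ℕ}
    (hn : 3 ≤ n) (x y : ZMod n → V) (p : Equiv.Perm (ZMod n)) (hx : Numb C₁ x) (hy : Numb C₂ y)
    (hM : ∀ i, M.Adj (x i) (y (p i))) (a b : ZMod n → ZMod 2) (hab : Ev p a b)
    (h0 : word p a b ≠ 0) (hz : ZFree (word p a b)) :
    (∃ g, Splits (Lp p) (word p a b) g) ∨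
      ∃ i, a (i - 1) = 1 ∧ a i = 1 ∧ b (p i - 1) = 1 ∧ b (p i) = 1 := by
  classical
  have : NeZero n := ⟨by omega⟩
  have N := H77.Code.num_of G M C₁ C₂ h hn x y p hx hy hM
  have hz1 : ∀ i, (H77.Code.word p a b i).1 = 0 → (H77.Code.word p a b i).2 = 0 := by
    intro i hi
    rcases H59.Pent.z2 (H77.Code.word p a b i).2 with h1 | h1
    · exact h1
    · exact absurd (Prod.ext hi h1 : word p a b i = z) (hz i)
  have hspl : (∃ g s t, H77.Code.Ev p s t ∧ H77.Code.word p a b g = 0 ∧
      H77.Code.word p s t g = (0, 1) ∧ ∀ i, i ≠ g → H77.Code.word p s t i = 0 ∨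
        H77.Code.word p s t i = H77.Code.word p a b i) →
      ∃ g, Splits (Lp p) (word p a b) g := by
    rintro ⟨g, s, t, h1, h2, h3, h4⟩
    have h2' : word p a b g = 0 := h2
    have h3' : word p s t g = z := h3
    refine ⟨g, word p s t, word_mem p s t h1, word p a b + word p s t,
      (Lp p).add_mem (word_mem p a b hab) (word_mem p s t h1), ?_, h3', ?_, ?_⟩
    · funext i
      show word p s t i + (word p a b i + word p s t i) = word p a b i
      rw [add_left_comm, kadd_self', add_zero]
    · show word p a b g + word p s t g = z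
      rw [h2', h3', zero_add]
    · intro i hi
      rcases h4 i hi with h5 | h5
      · exact Or.inl h5
      · right
        have h5' : word p s t i = word p a b i := h5
        show word p a b i + word p s t i = 0
        rw [h5', kadd_self']
  by_contra hboth
  push Not at hboth
  obtain ⟨hns, hown⟩ := hboth
  have hcon : ¬ ∃ g s t, H77.Code.Ev p s t ∧ H77.Code.word p a b g = 0 ∧
      H77.Code.word p s t g = (0, 1) ∧ ∀ i, i ≠ g → H77.Code.word p s t i = 0 ∨
        H77.Code.word p s t i = H77.Code.word p a b i := by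
    intro hh
    obtain ⟨g, hg⟩ := hspl hh
    exact hns g hg
  have b1 : Bridgeless (support G (H77.Code.W x y p a b)) := by
    by_contra hb
    exact hcon (H77.Code.split_of_bridge N a b hab hz1 hb)
  have b2 : Bridgeless (support G (H77.Code.W x y p (fun i => 1 + a i) (fun j => 1 + b j))) := by
    by_contra hb
    refine hcon ?_
    have hz' : ∀ i, (H77.Code.word p (fun i => 1 + a i) (fun j => 1 + b j) i).1 = 0 →
        (H77.Code.word p (fun i => 1 + a i) (fun j => 1 + b j) i).2 = 0 := by
      intro i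
      rw [H77.Code.word_flip]; exact hz1 i
    obtain ⟨g, s, t, h1, h2, h3, h4⟩ :=
      H77.Code.split_of_bridge N _ _ (H77.Code.ev_flip hab) hz' hb
    refine ⟨g, s, t, h1, by rw [← H77.Code.word_flip]; exact h2, h3, fun i hi => ?_⟩
    rw [← H77.Code.word_flip p a b i]
    exact h4 i hi
  have hi₀ : ∃ i, word p a b i ≠ 0 := by
    by_contra hcon'
    push Not at hcon'
    exact h0 (funext hcon')
  obtain ⟨i₀, hi₀⟩ := hi₀
  have ht : a (i₀ - 1) + a i₀ = 1 := by
    rcases H59.Pent.z2 (a (i₀ - 1) + a i₀) with h1 | h1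
    · exfalso
      exact hi₀ (Prod.ext h1 (hz1 i₀ h1))
    · exact h1
  have wM : ∀ i, wt M s(x i, y (p i)) = 2 := by
    intro i
    unfold wt
    rw [if_pos]
    exact hM i
  have wx : ∀ i, wt M s(x i, x (i + 1)) = 1 := by
    intro i
    unfold wt
    rw [if_neg]
    intro hm
    exact ((h.union _ _).2 (Or.inl ((hx.2.2 i _).2 (Or.inr rfl)))).2 hm
  have wy : ∀ i, wt M s(y i, y (i + 1)) = 1 := by
    intro i
    unfold wt
    rw [if_neg]
    intro hm
    exact ((h.union _ _).2 (Or.inr ((hy.2.2 i _).2 (Or.inr rfl)))).2 hm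
  have hsum : ∀ e ∈ G.edgeSet, wt M e = H77.Code.W x y p a b e +
      H77.Code.W x y p (fun i => 1 + a i) (fun j => 1 + b j) e := by
    intro e he
    rcases N.edge e he with ⟨k, rfl⟩ | ⟨k, rfl⟩ | ⟨k, rfl⟩
    · rw [wx, H77.Code.W_x hn N.ix N.hxy, H77.Code.W_x hn N.ix N.hxy]
      rcases H59.Pent.z2 (a k) with h1 | h1 <;> rw [h1] <;> decide
    · rw [wy, H77.Code.W_y hn N.iy N.hxy, H77.Code.W_y hn N.iy N.hxy]
      rcases H59.Pent.z2 (b k) with h1 | h1 <;> rw [h1] <;> decide
    · rw [wM, H77.Code.W_m N.ix N.hxy, H77.Code.W_m N.ix N.hxy]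
      rcases H59.Pent.z2 (a k) with h1 | h1 <;> rcases H59.Pent.z2 (a (k - 1)) with h2 | h2 <;>
        rw [h1, h2] <;> decide
  have hne : ∀ a' : ZMod n → ZMod 2, ∀ b' : ZMod n → ZMod 2, a' (i₀ - 1) + a' i₀ = 1 →
      H77.Code.W x y p a' b' s(x i₀, y (p i₀)) ≠ 0 := by
    intro a' b' h1
    rw [H77.Code.W_m N.ix N.hxy]
    rcases H59.Pent.z2_sum _ _ h1 with ⟨h2, h3⟩ | ⟨h2, h3⟩ <;> rw [h2, h3] <;> decide
  have hle : ∀ e ∈ G.edgeSet, H77.Code.W x y p a b e ≤ 1 := by
    intro e he
    rcases N.edge e he with ⟨k, rfl⟩ | ⟨k, rfl⟩ | ⟨k, rfl⟩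
    · rw [H77.Code.W_x hn N.ix N.hxy]
      rcases H59.Pent.z2 (a k) with h1 | h1 <;> rw [h1] <;> decide
    · rw [H77.Code.W_y hn N.iy N.hxy]
      rcases H59.Pent.z2 (b k) with h1 | h1 <;> rw [h1] <;> decide
    · rw [H77.Code.W_m N.ix N.hxy]
      rcases H59.Pent.z2 (a k) with h1 | h1 <;> rcases H59.Pent.z2 (a (k - 1)) with h2 | h2
      · rw [h1, h2]; decide
      · rw [h1, h2]; decide
      · rw [h1, h2]; decide
      · exfalso
        have h3 : (H77.Code.word p a b k).1 = 0 := by
          show a (k - 1) + a k = 0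
          rw [h1, h2]; decide
        have h4 : a k + b (p k) = 0 := hz1 k h3
        have h5 : b (p k) = 1 := by
          rw [h1] at h4
          rcases H59.Pent.z2 (b (p k)) with h6 | h6
          · rw [h6] at h4; exact absurd h4 (by decide)
          · exact h6
        have h6 : b (p k - 1) = 1 := by
          have h7 := hab k
          rw [h1, h2, h5] at h7
          rcases H59.Pent.z2 (b (p k - 1)) with h8 | h8
          · rw [h8] at h7; exact absurd h7 (by decide)
          · exact h8
        exact hown k h2 h1 h6 h5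
  have eul := H77.Code.eulerian_W N a b hab
  have hdeg : ∀ v u, (support G (H77.Code.W x y p a b)).Adj v u →
      ((support G (H77.Code.W x y p a b)).neighborSet v).ncard = 2 := by
    intro v u hvu
    have h1 := eul v
    have h2 : {u | (support G (H77.Code.W x y p a b)).Adj v u ∧
        Odd (H77.Code.W x y p a b s(v, u))} = (support G (H77.Code.W x y p a b)).neighborSet v := by
      ext t
      constructor
      · exact fun ht => ht.1
      · intro ht
        have ht' : (support G (H77.Code.W x y p a b)).Adj v t := ht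
        refine ⟨ht', ?_⟩
        have h3 := (H77.Code.supp_adj _ _ _).1 ht'
        have h4 := hle s(v, t) ((mem_edgeSet G).2 h3.1)
        have h5 : H77.Code.W x y p a b s(v, t) = 1 := by omega
        rw [h5]
        exact odd_one
    rw [h2] at h1
    have h3 : ((support G (H77.Code.W x y p a b)).neighborSet v).ncard ≤ 3 := by
      rw [← h.cubic v]
      refine Set.ncard_le_ncard ?_ (Set.toFinite _)
      intro t ht
      exact ((H77.Code.supp_adj _ _ _).1 ht).1
    have h4 : 0 < ((support G (H77.Code.W x y p a b)).neighborSet v).ncard := by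
      rw [Set.ncard_pos (Set.toFinite _)]
      exact ⟨u, hvu⟩
    obtain ⟨r, hr⟩ := h1
    omega
  exact (H97.Sum.not_cover_of_sum G (wt M) hcrit _ _ hsum ⟨_, N.gm i₀, hne a b ht⟩
    ⟨_, N.gm i₀, hne _ _ (by
      show (1 + a (i₀ - 1)) + (1 + a i₀) = 1; rw [H77.Code.z2_flip]; exact ht)⟩
    eul b1 (H77.Code.eulerian_W N _ _ (H77.Code.ev_flip hab)) b2).1
    (fcc_of_two G _ hle hdeg)

end Pool.Agent.H70.Q
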